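import Pool.Agent.ISB.StmtsA

/-!
# Squad ISB, row HAL (helper67): Hall's theorem
-/

set_option autoImplicit false

namespace Pool.Agent.ISB.H67

open Pool.Agent.ISB

theorem hal (hH : HlsStmt) : HalStmt := by
  intro F L _ _ _ A a s hA hst hs
  have key : ∀ i, i ≤ s → itr (dr A (s - i)) (dr A (s - i)) (hb a i) = ⊥ := by
    intro i
    induction i with
    | zero =>
      intro _
      show dr A (s - 0) = ⊥
      rw [Nat.sub_zero]
      exact hs
    | succ i ih =>
      intro hi
      obtain ⟨t, ht⟩ : ∃ t, t = s - (i + 1) := ⟨_, rfl⟩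
      have h1 : s - i = t + 1 := by omega
      have h2 := ih (by omega)
      rw [h1] at h2
      rw [← ht]
      exact hH F L A a (hb a i) t hA (hst t) h2
  have h3 := key s le_rfl
  rw [Nat.sub_self] at h3
  exact h3

end Pool.Agent.ISB.H67
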